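import Pool.Agent.H7.HD.Targets3
import Pool.Agent.H3.HD.Iter

/-!
# MP_e37c09_lc: module WE, clubs of ordinals of large Mitchell order in HOD
-/

open Ordinal Cardinal Order Set
open scoped ZFSet

universe u

namespace Pool.Agent.H76.HD.WE

open _root_.HD

lemma ex_reg {D μ : Cardinal.{u}} (hDs : D.IsStrongLimit) (hD0 : ℵ₀ < D) (hμ : μ < D) :
    ∃ N : Cardinal.{u}, N.IsRegular ∧ μ < N ∧ ℵ₀ < N ∧ N < D := by
  refine ⟨succ (max μ ℵ₀), Cardinal.isRegular_succ (le_max_right _ _), ?_, ?_, ?_⟩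
  · exact lt_of_le_of_lt (le_max_left μ ℵ₀) (lt_succ _)
  · exact lt_of_le_of_lt (le_max_right μ ℵ₀) (lt_succ _)
  · exact hDs.isSuccLimit.succ_lt (max_lt hμ hD0)

/-- the intersection of fewer than `cof ρ` club sets is club -/
theorem club_inter {ρ τ : Ordinal.{u}} (hρ : ℵ₀ < ρ.cof) (hτ : τ.card < ρ.cof)
    (C : Ordinal.{u} → Set Ordinal.{u}) (hC : ∀ i < τ, Clb ρ (C i)) :
    Clb ρ {b | ∀ i < τ, b ∈ C i} := by
  refine ⟨?_, ?_⟩
  · intro a ha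
    have hstep : ∀ b < ρ, ∃ b' < ρ, b < b' ∧ ∀ i < τ, ∃ c ∈ C i, b < c ∧ c ≤ b' := by
      intro b hb
      have h2 : ∀ i < τ, ∃ c < ρ, b < c ∧ c ∈ C i := fun i hi => (hC i hi).unb b hb
      choose! c hc using h2
      obtain ⟨s, hs, hs2⟩ := Pool.Agent.H3.HD.exists_bound hτ c (fun i hi => (hc i hi).1)
      have hlim : IsSuccLimit ρ := (Ordinal.one_lt_cof_iff).1 (Cardinal.one_lt_aleph0.trans hρ)
      refine ⟨max s (b + 1), max_lt hs (hlim.add_one_lt hb),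
        lt_of_lt_of_le (_root_.lt_add_one b) (le_max_right _ _), ?_⟩
      intro i hi
      exact ⟨c i, (hc i hi).2.2, (hc i hi).2.1, (hs2 i hi).trans (le_max_left _ _)⟩
    obtain ⟨x, hx, s, hs0, hsx, hsP, hsy⟩ := Pool.Agent.H3.HD.exists_iter hρ _ hstep a ha
    refine ⟨x, hx, hs0 ▸ hsx 0, ?_⟩
    intro i hi
    refine (hC i hi).cls x hx ((zero_le (a := s 0)).trans_lt (hsx 0)) ?_
    intro y hy
    obtain ⟨n, hn⟩ := hsy y hy
    obtain ⟨c, hc, h3, h4⟩ := hsP n i hi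
    exact ⟨c, h4.trans_lt (hsx _), hn.trans h3, hc⟩
  · intro x hx hx0 h i hi
    refine (hC i hi).cls x hx hx0 ?_
    intro y hy
    obtain ⟨z, hz, hyz, hzC⟩ := h y hy
    exact ⟨z, hz, hyz, hzC i hi⟩

theorem we (hWD : T_WD.{u}) (hEN : T_EN.{u}) (hHA : T_HA.{u}) (hHB : T_HB.{u}) (hHC : T_HC.{u})
    (hHF : T_HF.{u}) (hVA : T_VA.{u}) : T_WE.{u} := by
  intro D K hGood hKr hDK ξ hξ
  obtain ⟨hDr, hDs, hD0, hNSall⟩ := hGood
  obtain ⟨en, hen⟩ := hEN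
  have hK0 : ℵ₀ < K := hD0.trans hDK
  have hKc : K.ord.cof = K := hKr.cof_ord
  have hNS : ∀ M : Cardinal.{u}, M.IsRegular → M < D → NS D.ord M.ord K.ord :=
    fun M hM hMD => hNSall M hM hMD K.ord (by rw [hKc]; exact hDK.le)
  have hnsx : ∀ M : Cardinal.{u}, M.IsRegular → M < D → NSX D.ord M.ord K.ord :=
    fun M hM hMD => hHA _ _ _ (hNS M hM hMD)
  have hatom : ∀ M : Cardinal.{u}, M.IsRegular → M < D → ∀ X : Set Ordinal.{u}, DS X →
      Pos M.ord K.ord X → ∃ c, E en c ⊆ X ∧ Atom en M.ord K.ord c :=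
    fun M hM hMD => hHB en hen D M K hDr hDs hD0 hM hMD hKr hDK (hnsx M hM hMD)
  have hfam : ∀ M : Cardinal.{u}, M.IsRegular → M < D →
      ∃ τ < D.ord, ∃ e : Ordinal.{u} → Ordinal.{u}, (∀ i < τ, Atom en M.ord K.ord (e i)) ∧
      ¬ Pos M.ord K.ord {b | ∀ i < τ, b ∉ E en (e i)} :=
    fun M hM hMD => hHC en hen D M K hDr hD0 hM hMD hKr hDK (hnsx M hM hMD) (hatom M hM hMD)
  obtain ⟨m, hm, hWD'⟩ := hWD en hen D K hDr hDs hD0 hKr hDK hfam ξ hξ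
  obtain ⟨M, hM, hmM, -, hMD⟩ := ex_reg hDs hD0 hm
  obtain ⟨τ, hτ, e, he, hnull⟩ := hfam M hM hMD
  have hτD : τ.card < D := Cardinal.lt_ord.1 hτ
  obtain ⟨μ, -, hμ, hμ0, hμD⟩ := ex_reg hDs hD0 (max_lt hMD hτD)
  have hMμ : M < μ := lt_of_le_of_lt (le_max_left _ _) hμ
  have hτμ : τ.card < μ := lt_of_le_of_lt (le_max_right _ _) hμ
  refine ⟨μ, hμD, ?_⟩
  -- the exceptional set is null for each cofinality
  have hZ : ∀ P : Cardinal.{u}, P.IsRegular → μ ≤ P → P < D →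
      ¬ Pos P.ord K.ord {α | ¬ ∃ U, MGe α ξ U} := by
    intro P hP hμP hPD
    obtain ⟨τP, hτP, eP, heP, hnullP⟩ := hfam P hP hPD
    have hPK : P < K := hPD.trans hDK
    have h1 : ∀ k < τP, ¬ Pos P.ord K.ord {α | α ∈ E en (eP k) ∧ ¬ ∃ U, MGe α ξ U} := by
      intro k hk
      obtain ⟨i, hi, hpos⟩ := hHF en M P K hen hM hP hKr (hMμ.trans_le hμP) hPK τ
        (Cardinal.lt_ord.2 (hτμ.trans_le hμP)) e hnull (eP k) (heP k hk)
      have h2 := hWD' M P hM hmM.le hPD (e i) (eP k)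
        ⟨hen, hM, hP, hKr, hMμ.trans_le hμP, hPK, he i hi, heP k hk, hpos⟩
      intro h3
      refine h2 (h3.mono ?_)
      rintro α - ⟨h4, h5⟩ -
      exact ⟨h4, fun h6 => h5 ⟨_, h6⟩⟩
    have h2 := hVA P.ord K.ord (by rw [hKc]; exact hK0) τP
      (by rw [hKc]; exact (Cardinal.lt_ord.1 hτP).trans hDK)
      (fun k => {α | α ∈ E en (eP k) ∧ ¬ ∃ U, MGe α ξ U}) h1
    have h3 := null_union hVA (by rw [hKc]; exact hK0) h2 hnullP
    intro h4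
    refine h3 (h4.mono ?_)
    intro α _ hα _
    by_cases h5 : ∃ k < τP, α ∈ E en (eP k)
    · obtain ⟨k, hk, h6⟩ := h5
      exact Or.inl ⟨k, hk, h6, hα⟩
    · push Not at h5
      exact Or.inr h5
  have hcl : ∀ i : Ordinal.{u}, ∃ C : Set Ordinal.{u}, Clb K.ord C ∧
      (i.card.IsRegular → μ ≤ i.card → i.card < D → ∀ b < K.ord, b ∈ C →
        Cf i.card.ord b → ∃ U, MGe b ξ U) := by
    intro i
    by_cases hi : i.card.IsRegular ∧ μ ≤ i.card ∧ i.card < D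
    · have h := hZ i.card hi.1 hi.2.1 hi.2.2
      unfold Pos at h
      push Not at h
      obtain ⟨C, hC, h⟩ := h
      refine ⟨C, hC, fun _ _ _ b hb hbC hcf => ?_⟩
      by_contra hno
      exact h b hb hbC (fun U hU => hno ⟨U, hU⟩) hcf
    · refine ⟨univ, ⟨fun a ha => ?_, fun _ _ _ _ => mem_univ _⟩, fun h1 h2 h3 => absurd ⟨h1, h2, h3⟩ hi⟩
      exact ⟨a + 1, (Cardinal.isSuccLimit_ord hK0.le).add_one_lt ha, _root_.lt_add_one a,
        mem_univ _⟩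
  choose C hC1 hC2 using hcl
  refine ⟨{b | ∀ i < D.ord, b ∈ C i}, club_inter (by rw [hKc]; exact hK0)
    (by rw [hKc, Cardinal.card_ord]; exact hDK) C (fun i _ => hC1 i), ?_⟩
  intro α hα hαK hμα hαD
  have h1 : α.cof.ord.card = α.cof := Cardinal.card_ord _
  have hreg : α.cof.IsRegular := by
    refine ⟨hμ0.le.trans hμα, ?_⟩
    rw [Ordinal.cof_ord_cof]
  have h2 := hC2 α.cof.ord (by rw [h1]; exact hreg) (by rw [h1]; exact hμα)
    (by rw [h1]; exact hαD) α hαK (hα _ (Cardinal.ord_lt_ord.2 hαD))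
  refine h2 ?_
  rw [h1]
  rfl

end Pool.Agent.H76.HD.WE
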