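import Pool.Agent.H3.HD.ZE

/-!
# MP_e37c09_lc: module ZF, clubs of ordinals whose Mitchell order in HOD is at least their cofinality
-/

open Ordinal Cardinal Order Set
open scoped ZFSet

universe u

namespace Pool.Agent.H76.HD.ZF

open _root_.HD
open Pool.Agent.H3.HD.ZE (nr_reg lt_nr)

theorem nr_lt_D {D M : Cardinal.{u}} (hDs : D.IsStrongLimit) (hD0 : ℵ₀ < D) (hM : M < D) :
    nr M < D := hDs.isSuccLimit.succ_lt (max_lt hM hD0)

theorem mm_lt {D : Cardinal.{u}} (hDr : D.IsRegular) (hDs : D.IsStrongLimit) (hD0 : ℵ₀ < D)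
    {g : Cardinal.{u} → Cardinal.{u}} (hg : ∀ M < D, g M < D) (ζ : Ordinal.{u}) :
    ζ < D.ord → mm g ζ < D := by
  induction ζ using WellFoundedLT.induction with
  | ind ζ ih =>
    intro hζ
    let F : ζ.ToType → Cardinal.{u} := fun t =>
      succ (max (g (nr (mm g (Ordinal.ToType.mk.symm t).1))) (nr (mm g (Ordinal.ToType.mk.symm t).1)))
    have hF : ∀ t, F t < D := by
      intro t
      have ht : (Ordinal.ToType.mk.symm t).1 < ζ := (Ordinal.ToType.mk.symm t).2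
      have h1 := nr_lt_D hDs hD0 (ih _ ht (ht.trans hζ))
      exact hDs.isSuccLimit.succ_lt (max_lt (hg _ h1) h1)
    have hsup : iSup F < D := by
      refine Cardinal.iSup_lt_of_isRegular hDr ?_ hF
      rw [Cardinal.mk_toType]
      exact Cardinal.lt_ord.1 hζ
    refine lt_of_le_of_lt ?_ hsup
    rw [mm.eq_def g ζ]
    refine ciSup_le' fun t => ?_
    have h2 := le_ciSup (Cardinal.bddAbove_of_small (s := range F)) (Ordinal.ToType.mk t)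
    simpa [F] using h2

theorem fam {en : Ordinal.{u} → ZFSet.{u}} (hen : EN en) {D K M : Cardinal.{u}} (hG : GoodN D)
    (hK : K.IsRegular) (hDK : D < K) (hM : M.IsRegular) (hMD : M < D) :
    ∃ τ < D.ord, ∃ e : Ordinal.{u} → Ordinal.{u}, (∀ i < τ, Atom en M.ord K.ord (e i)) ∧
      ¬ Pos M.ord K.ord {b | ∀ i < τ, b ∉ E en (e i)} := by
  obtain ⟨hDr, hDs, hD0, hNSall⟩ := hG
  have hNS : NS D.ord M.ord K.ord := hNSall M hM hMD K.ord (by rw [hK.cof_ord]; exact hDK.le)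
  have hnsx := HD.All.ha _ _ _ hNS
  exact HD.All.hc en hen D M K hDr hD0 hM hMD hK hDK hnsx
    (HD.All.hb en hen D M K hDr hDs hD0 hM hMD hK hDK hnsx)

/-- the exceptional set is null -/
theorem null_aux {en : Ordinal.{u} → ZFSet.{u}} (hen : EN en) {K N : Cardinal.{u}}
    {g : Cardinal.{u} → Cardinal.{u}} (hK : K.IsRegular) (hK0 : ℵ₀ < K) (hN : N.IsRegular)
    (ξ : Ordinal.{u}) (hgN : ∀ M < N, M < g M ∧ GoodN (g M) ∧ g M < K)
    (hN1 : N < g N ∧ GoodN (g N) ∧ g N < K) (hM1 : nr (mm g ξ) < N) (hM2 : g (nr (mm g ξ)) < N) :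
    ¬ Pos N.ord K.ord {α | ¬ ∃ U, MGe α ξ U} := by
  set M := nr (mm g ξ) with hMdef
  have hMr : M.IsRegular := nr_reg _
  have hKc : K.ord.cof = K := hK.cof_ord
  have hNK : N < K := hN1.1.trans hN1.2.2
  obtain ⟨τ, hτ, e, he, hnull⟩ := fam hen (hgN M hM1).2.1 hK (hgN M hM1).2.2 hMr (hgN M hM1).1
  have hτN : τ < N.ord := hτ.trans (Cardinal.ord_lt_ord.2 hM2)
  obtain ⟨τP, hτP, eP, heP, hnullP⟩ := fam hen hN1.2.1 hK hN1.2.2 hN hN1.1
  have h1 : ∀ k < τP, ¬ Pos N.ord K.ord {α | α ∈ E en (eP k) ∧ ¬ ∃ U, MGe α ξ U} := by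
    intro k hk
    obtain ⟨i, hi, hpos⟩ := HD.All.hf en M N K hen hMr hN hK hM1 hNK τ hτN e hnull (eP k)
      (heP k hk)
    have h2 := Pool.Agent.H3.HD.ZE.ze en hen K g hK hK0 ξ M N hMr (lt_nr _).le
      (fun M' hM'r hM' => fam hen (hgN M' (hM'.trans hM1)).2.1 hK (hgN M' (hM'.trans hM1)).2.2
        hM'r (hgN M' (hM'.trans hM1)).1) (e i) (eP k)
      ⟨hen, hMr, hN, hK, hM1, hNK, he i hi, heP k hk, hpos⟩
    intro h3
    refine h2 (h3.mono ?_)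
    rintro α - ⟨h4, h5⟩ -
    exact ⟨h4, fun h6 => h5 ⟨_, h6⟩⟩
  have h2 := HD.All.va N.ord K.ord (by rw [hKc]; exact hK0) τP
    (by rw [hKc]; exact (Cardinal.lt_ord.1 hτP).trans hN1.2.2)
    (fun k => {α | α ∈ E en (eP k) ∧ ¬ ∃ U, MGe α ξ U}) h1
  have h3 := null_union HD.All.va (by rw [hKc]; exact hK0) h2 hnullP
  intro h4
  refine h3 (h4.mono ?_)
  intro α _ hα _
  by_cases h5 : ∃ k < τP, α ∈ E en (eP k)
  · obtain ⟨k, hk, h6⟩ := h5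
    exact Or.inl ⟨k, hk, h6, hα⟩
  · push Not at h5
    exact Or.inr h5

theorem clb_univ {K : Cardinal.{u}} (hK : K.IsRegular) : Clb K.ord (univ : Set Ordinal.{u}) := by
  refine ⟨fun a ha => ?_, fun _ _ _ _ => mem_univ _⟩
  exact ⟨a + 1, (Cardinal.isSuccLimit_ord hK.aleph0_le).add_one_lt ha, _root_.lt_add_one a,
    mem_univ _⟩

theorem zf : T_ZF.{u} := by
  intro D hD
  obtain ⟨hDr, hDs, hD0, hU⟩ := hD
  obtain ⟨en, hen⟩ := HD.All.en.{u}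
  have hgex : ∀ M : Cardinal.{u}, ∃ D' : Cardinal.{u}, M < D → M < D' ∧ GoodN D' ∧ D' < D := by
    intro M
    by_cases hM : M < D
    · obtain ⟨D', h1, h2, h3⟩ := hU M.ord (Cardinal.ord_lt_ord.2 hM)
      exact ⟨D', fun _ => ⟨Cardinal.ord_lt_ord.1 h2, h3, h1⟩⟩
    · exact ⟨0, fun h => absurd h hM⟩
  choose g hg using hgex
  have hgD : ∀ M < D, g M < D := fun M hM => (hg M hM).2.2
  have hmm : ∀ ζ < D.ord, mm g ζ < D := fun ζ hζ => mm_lt hDr hDs hD0 hgD ζ hζ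
  set h : Ordinal.{u} → Ordinal.{u} := fun x =>
    max (g (nr (mm g x))).ord (g x.card).ord with hh
  have hhD : ∀ x < D.ord, h x < D.ord := by
    intro x hx
    refine max_lt (Cardinal.ord_lt_ord.2 (hgD _ (nr_lt_D hDs hD0 (hmm x hx))))
      (Cardinal.ord_lt_ord.2 (hgD _ (Cardinal.lt_ord.1 hx)))
  set S : Set Ordinal.{u} := {x | (0 < x ∧ ∀ y < x, h y < x) ∧ x < D.ord} with hS
  have hSlt : ∀ x ∈ S, x < D.ord := fun x hx => hx.2
  have hSc : ∀ x ∈ S, ∀ M : Cardinal.{u}, M.ord < x → (g M).ord < x := by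
    intro x hx M hM
    have h1 := hx.1.2 _ hM
    refine lt_of_le_of_lt ?_ h1
    have h2 := le_max_right (g (nr (mm g M.ord))).ord (g M.ord.card).ord
    rw [Cardinal.card_ord] at h2
    rw [hh]
    simpa only [Cardinal.card_ord] using h2
  have hSω : ∀ x ∈ S, (ℵ₀ : Cardinal.{u}).ord < x := by
    intro x hx
    have h1 := hx.1.2 0 hx.1.1
    have h0 : (0 : Cardinal.{u}) < D := Cardinal.aleph0_pos.trans hD0
    have h2 := (hg 0 h0).2.1.2.2.1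
    refine (Cardinal.ord_lt_ord.2 h2).trans (lt_of_le_of_lt ?_ h1)
    have h3 := le_max_right (g (nr (mm g 0))).ord (g (0 : Ordinal.{u}).card).ord
    rw [Ordinal.card_zero] at h3
    rw [hh]
    simpa only [Ordinal.card_zero] using h3
  refine ⟨S, fun x hx => hx.2, ?_, ?_⟩
  · have h1 := HD.All.ve D hDr hD0 h hhD
    refine ⟨fun a ha => ?_, fun x hx hx0 hlim => ?_⟩
    · obtain ⟨b, hb, hab, hbC⟩ := h1.unb a ha
      exact ⟨b, hb, hab, hbC, hb⟩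
    · refine ⟨h1.cls x hx hx0 fun y hy => ?_, hx⟩
      obtain ⟨z, hz, hyz, hzS⟩ := hlim y hy
      exact ⟨z, hz, hyz, hzS.1⟩
  intro K hK
  by_cases hK0 : ℵ₀ < K
  swap
  · refine ⟨univ, clb_univ hK, fun α _ _ δ₀ _ δ₁ hδ₁ _ _ h3 => ?_⟩
    exfalso
    have h4 := (hSω δ₁ hδ₁).trans h3
    exact hK0 (Cardinal.ord_lt_ord.1 h4)
  have hcl : ∀ ν ξ : Ordinal.{u}, ∃ B : Set Ordinal.{u}, Clb K.ord B ∧
      (ν.card.IsRegular → (∃ δ₀ ∈ S, ∃ δ₁ ∈ S, δ₀ ≤ ν.card.ord ∧ ν.card.ord < δ₁ ∧ δ₁ < K.ord ∧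
        ξ < δ₀) → ∀ b < K.ord, b ∈ B → Cf ν.card.ord b → ∃ U, MGe b ξ U) := by
    intro ν ξ
    by_cases hi : ν.card.IsRegular ∧ (∃ δ₀ ∈ S, ∃ δ₁ ∈ S, δ₀ ≤ ν.card.ord ∧ ν.card.ord < δ₁ ∧
        δ₁ < K.ord ∧ ξ < δ₀)
    · obtain ⟨hNr, δ₀, hδ₀, δ₁, hδ₁, h1, h2, h3, h4⟩ := hi
      set N := ν.card with hNdef
      have hδ₁D := hSlt δ₁ hδ₁
      have hND : N < D := Cardinal.ord_lt_ord.1 (h2.trans hδ₁D)
      have hξD : ξ < D.ord := h4.trans (hSlt δ₀ hδ₀)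
      have hMD : nr (mm g ξ) < D := nr_lt_D hDs hD0 (hmm ξ hξD)
      have hgM : (g (nr (mm g ξ))).ord < δ₀ :=
        lt_of_le_of_lt (le_max_left _ _) (hδ₀.1.2 ξ h4)
      have hgMN : g (nr (mm g ξ)) < N := Cardinal.ord_lt_ord.1 (hgM.trans_le h1)
      have hzero := null_aux (g := g) hen hK hK0 hNr ξ
        (fun M' hM' => by
          have hM'D : M' < D := hM'.trans hND
          have h5 := hg M' hM'D
          refine ⟨h5.1, h5.2.1, ?_⟩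
          exact Cardinal.ord_lt_ord.1
            ((hSc δ₁ hδ₁ M' ((Cardinal.ord_lt_ord.2 hM').trans h2)).trans h3))
        ⟨(hg N hND).1, (hg N hND).2.1, Cardinal.ord_lt_ord.1 ((hSc δ₁ hδ₁ N h2).trans h3)⟩
        ((hg _ hMD).1.trans hgMN) hgMN
      unfold Pos at hzero
      push Not at hzero
      obtain ⟨C, hC, hCC⟩ := hzero
      refine ⟨C, hC, fun _ _ b hb hbC hcf => ?_⟩
      by_contra hno
      exact hCC b hb hbC (fun U hU => hno ⟨U, hU⟩) hcf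
    · exact ⟨univ, clb_univ hK, fun h1 h2 => absurd ⟨h1, h2⟩ hi⟩
  choose B hB1 hB2 using hcl
  refine ⟨{x | 0 < x ∧ ∀ ν < x, x ∈ {y | 0 < y ∧ ∀ ξ < y, y ∈ B ν ξ}},
    Pool.Agent.H33.HD.VD.diag hK hK0 _ fun ν _ =>
      Pool.Agent.H33.HD.VD.diag hK hK0 _ fun ξ _ => hB1 ν ξ, ?_⟩
  rintro α ⟨hα0, hα⟩ hαK δ₀ hδ₀ δ₁ hδ₁ h1 h2 h3 ξ hξ
  have hω : ℵ₀ ≤ α.cof := (Cardinal.ord_lt_ord.1 ((hSω δ₀ hδ₀).trans_le h1)).le
  have hreg : α.cof.IsRegular := by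
    refine ⟨hω, ?_⟩
    rw [Ordinal.cof_ord_cof]
  have hle : α.cof.ord ≤ α := Ordinal.ord_cof_le α
  rcases hle.lt_or_eq with hlt | heq
  · have h4 := (hα _ hlt).2 ξ (hξ.trans_le (h1.trans hle))
    have h5 := hB2 α.cof.ord ξ
    rw [Cardinal.card_ord] at h5
    exact h5 hreg ⟨δ₀, hδ₀, δ₁, hδ₁, h1, h2, h3, hξ⟩ α hαK h4 rfl
  · have hξD : ξ < D.ord := hξ.trans (hSlt δ₀ hδ₀)
    obtain ⟨g1, g2, g3⟩ := hg ξ.card (Cardinal.lt_ord.1 hξD)
    have g4 : (g ξ.card).ord < δ₀ := lt_of_le_of_lt (le_max_right _ _) (hδ₀.1.2 ξ hξ)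
    have g5 : g ξ.card < α.cof := Cardinal.ord_lt_ord.1 (g4.trans_le h1)
    obtain ⟨k1, k2, k3, k4⟩ := g2
    have h6 := HD.All.hl (g ξ.card) α.cof k1 k2 k3 hreg g5
      (fun M hM hMD => k4 M hM hMD α.cof.ord (by rw [hreg.cof_ord]; exact g5.le)) ξ
      (Cardinal.lt_ord.2 g1)
    rwa [heq] at h6

end Pool.Agent.H76.HD.ZF
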