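import Pool.Agent.H82.HD.TA
import Pool.Agent.H83.G.Targets1

/-!
MP_ee74d2_an, theorem HD, row TUB: the planks of a tube.
-/

set_option autoImplicit false

namespace Pool.Agent.H76.HD

open MeasureTheory Set
open Pool.Agent.H83.G
open Pool.Agent.H82.HD
open scoped ENNReal NNReal RealInnerProductSpace

private lemma Lo_fst {m : ℕ} (η : E m) (s c : ℝ) :
    Lo η s ((c, 0, 0) : Z m) = (c, 0, 0) := by
  simp [Lo]

private lemma abs_lt_of_div {a b n : ℤ} (hn : 0 < n) (h : a / n = b / n) : |b - a| ≤ n - 1 := by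
  have ha := Int.emod_add_mul_ediv a n
  have hb := Int.emod_add_mul_ediv b n
  have ha1 := Int.emod_nonneg a hn.ne'
  have hb1 := Int.emod_nonneg b hn.ne'
  have ha2 := Int.emod_lt_of_pos a hn
  have hb2 := Int.emod_lt_of_pos b hn
  rw [h] at ha
  rw [abs_le]
  constructor <;> linarith

theorem pf_TUB (hLOA : T_LOA) : T_TUB := by
  intro m R δ W q hR hδ hI
  obtain ⟨hadd, -⟩ := hLOA m
  obtain ⟨W0, z0, htb, hz0, hn0⟩ := hI
  have hR0 : (0 : ℝ) < R := by linarith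
  have hs1 : (1 : ℝ) ≤ Real.sqrt R := Real.one_le_sqrt.2 hR
  have hn : 0 < ⌈Real.sqrt R⌉ := Int.ceil_pos.2 (by linarith)
  have h1 : W0.1 = W.1 := by
    have := congrArg (fun T : Pk m => T.1) htb
    simpa only [tb] using this
  have h2 : W0.2.1 / ⌈Real.sqrt R⌉ = W.2.1 / ⌈Real.sqrt R⌉ := by
    have := congrArg (fun T : Pk m => T.2.1) htb
    simpa only [tb] using this
  have h3 : W0.2.2 = W.2.2 := by
    have := congrArg (fun T : Pk m => T.2.2) htb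
    simpa only [tb] using this
  have hj := abs_lt_of_div hn h2
  have hj' : |((W.2.1 : ℝ) - (W0.2.1 : ℝ))| ≤ Real.sqrt R := by
    have h4 : (|W.2.1 - W0.2.1| : ℝ) ≤ (⌈Real.sqrt R⌉ : ℝ) - 1 := by exact_mod_cast hj
    have h5 := Int.ceil_lt_add_one (Real.sqrt R)
    linarith
  have hp : R ^ (-δ) * R ^ δ = 1 := by
    rw [← Real.rpow_add hR0]; simp
  have hpd : (0 : ℝ) ≤ R ^ δ := (Real.rpow_pos_of_pos hR0 δ).le
  refine ⟨z0 + ((R ^ δ * ((W.2.1 : ℝ) - W0.2.1), 0, 0) : Z m), ?_, ?_⟩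
  · have hfc : fc R δ W.1 (z0 + ((R ^ δ * ((W.2.1 : ℝ) - W0.2.1), 0, 0) : Z m)) - zc W.2 =
        fc R δ W0.1 z0 - zc W0.2 := by
      have e1 : fc R δ W.1 (z0 + ((R ^ δ * ((W.2.1 : ℝ) - W0.2.1), 0, 0) : Z m)) =
          fc R δ W0.1 z0 + (((W.2.1 : ℝ) - W0.2.1, 0, 0) : Z m) := by
        unfold fc
        rw [(hadd _ _ _ _).1, Lo_fst, smul_add, h1]
        congr 1
        simp only [Prod.smul_mk, smul_zero, smul_eq_mul, mul_zero]
        rw [← mul_assoc, hp, one_mul]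
      have e2 : (zc W.2 : Z m) = zc W0.2 + (((W.2.1 : ℝ) - W0.2.1, 0, 0) : Z m) := by
        unfold zc
        rw [h3]
        simp
      rw [e1, e2]
      abel
    unfold near
    rw [hfc]
    exact hn0
  · have e3 : z0 + ((R ^ δ * ((W.2.1 : ℝ) - W0.2.1), 0, 0) : Z m) - Real.sqrt R • zc q =
        (z0 - Real.sqrt R • zc q) + ((R ^ δ * ((W.2.1 : ℝ) - W0.2.1), 0, 0) : Z m) := by abel
    rw [e3]
    have e4 : ‖((R ^ δ * ((W.2.1 : ℝ) - W0.2.1), 0, 0) : Z m)‖ ≤ R ^ (1 / 2 + δ) := by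
      have e5 : ‖((R ^ δ * ((W.2.1 : ℝ) - W0.2.1), 0, 0) : Z m)‖ =
          |R ^ δ * ((W.2.1 : ℝ) - W0.2.1)| := by
        simp only [Prod.norm_def, norm_zero, max_self, Real.norm_eq_abs]
        exact max_eq_left (abs_nonneg _)
      rw [e5, abs_mul, abs_of_nonneg hpd, Real.rpow_add hR0, ← Real.sqrt_eq_rpow, mul_comm]
      exact mul_le_mul_of_nonneg_right hj' hpd
    have e6 : (0 : ℝ) ≤ R ^ (1 / 2 + δ) := (Real.rpow_pos_of_pos hR0 _).le
    calc ‖(z0 - Real.sqrt R • zc q) + ((R ^ δ * ((W.2.1 : ℝ) - W0.2.1), 0, 0) : Z m)‖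
        ≤ ((m : ℝ) + 1) * R ^ (1 / 2 + δ) + R ^ (1 / 2 + δ) :=
          (norm_add_le _ _).trans (add_le_add hz0 e4)
      _ ≤ ((m : ℝ) + 3) * R ^ (1 / 2 + δ) := by nlinarith

end Pool.Agent.H76.HD
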